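import Pool.Agent.H207.BT.Stm4

/-!
# Project BT: the root lemma with parameters (helper39 for helper207)
-/

set_option autoImplicit false

namespace Pool.Agent.H39.BT207.ROOTA

open Topology Filter Metric Set
open Pool.Agent.H207.BT

/-- holomorphic functions are locally Lipschitz -/
theorem lip_near {E : Type} [NormedAddCommGroup E] [NormedSpace ℂ E] (f : E → ℂ) (c : E) (ρ : ℝ)
    (hρ : 0 < ρ) (hd : DifferentiableOn ℂ f (ball c ρ)) :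
    ∃ R > (0 : ℝ), R ≤ ρ ∧ ∃ C ≥ (0 : ℝ), ∀ p ∈ ball c R, ∀ q ∈ ball c R,
      ‖f p - f q‖ ≤ C * ‖p - q‖ := by
  have hcont : ContinuousAt f c := hd.continuousOn.continuousAt (ball_mem_nhds c hρ)
  obtain ⟨δ, hδ, hδ2⟩ := Metric.continuousAt_iff.1 hcont 1 one_pos
  obtain ⟨R₀, hR₀⟩ : ∃ R₀ : ℝ, R₀ = min δ ρ := ⟨_, rfl⟩
  have hR0 : 0 < R₀ := by rw [hR₀]; exact lt_min hδ hρ
  have hRδ : R₀ ≤ δ := by rw [hR₀]; exact min_le_left _ _
  have hRρ : R₀ ≤ ρ := by rw [hR₀]; exact min_le_right _ _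
  refine ⟨R₀ / 4, by positivity, by linarith, 4 / R₀, by positivity, ?_⟩
  intro p hp q hq
  rcases eq_or_ne p q with rfl | hpq
  · simp
  have hn : 0 < ‖p - q‖ := norm_pos_iff.2 (sub_ne_zero.2 hpq)
  rw [mem_ball, dist_eq_norm] at hp hq
  have hlt : ‖p - q‖ < R₀ / 2 := by
    have : p - q = (p - c) - (q - c) := by abel
    rw [this]
    have := norm_sub_le (p - c) (q - c)
    linarith
  obtain ⟨T, hT⟩ : ∃ T : ℝ, T = (R₀ / 2) / ‖p - q‖ := ⟨_, rfl⟩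
  have hT1 : 1 < T := by
    rw [hT, one_lt_div hn]
    exact hlt
  have hT0 : 0 < T := by linarith
  have hin : ∀ t ∈ ball (0 : ℂ) T, q + t • (p - q) ∈ ball c R₀ := by
    intro t ht
    rw [mem_ball, dist_zero_right] at ht
    rw [mem_ball, dist_eq_norm]
    have h1 : q + t • (p - q) - c = (q - c) + t • (p - q) := by abel
    rw [h1]
    have h2 := norm_add_le (q - c) (t • (p - q))
    rw [norm_smul] at h2
    have h3 : ‖t‖ * ‖p - q‖ < T * ‖p - q‖ := mul_lt_mul_of_pos_right ht hn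
    have h4 : T * ‖p - q‖ = R₀ / 2 := by
      rw [hT, div_mul_cancel₀ _ hn.ne']
    linarith
  have hdφ : DifferentiableOn ℂ (fun t : ℂ => f (q + t • (p - q))) (ball 0 T) := by
    refine (hd.mono (ball_subset_ball hRρ)).comp (t := ball c R₀) ?_ hin
    fun_prop
  have hmaps : MapsTo (fun t : ℂ => f (q + t • (p - q))) (ball 0 T)
      (closedBall ((fun t : ℂ => f (q + t • (p - q))) 0) 2) := by
    intro t ht
    have h1 := hδ2 (ball_subset_ball hRδ (hin t ht))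
    have h2 := hδ2 (ball_subset_ball hRδ (hin 0 (mem_ball_self hT0)))
    rw [mem_closedBall]
    have h3 := dist_triangle_right (f (q + t • (p - q))) (f (q + (0 : ℂ) • (p - q))) (f c)
    show dist (f (q + t • (p - q))) (f (q + (0 : ℂ) • (p - q))) ≤ 2
    linarith
  have h1 := Complex.dist_le_div_mul_dist_of_mapsTo_ball hdφ hmaps
    (show (1 : ℂ) ∈ ball (0 : ℂ) T by rw [mem_ball, dist_zero_right, norm_one]; exact hT1)
  have h2 : dist (f p) (f q) ≤ 2 / T := by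
    have e1 : q + (1 : ℂ) • (p - q) = p := by rw [one_smul]; abel
    have e2 : q + (0 : ℂ) • (p - q) = q := by rw [zero_smul, add_zero]
    simp only [e1, e2, dist_zero_right, norm_one, mul_one] at h1
    exact h1
  rw [dist_eq_norm] at h2
  refine h2.trans (le_of_eq ?_)
  rw [hT]
  field_simp
  norm_num

/-- the order of the zero of a primitive -/
theorem order_prim (G h₁ : ℂ → ℂ) (ζ₀ : ℂ) (m : ℕ) (ρ : ℝ) (hρ : 0 < ρ)
    (hG0 : G ζ₀ = 0) (hh : DifferentiableOn ℂ h₁ (ball ζ₀ ρ)) (hh0 : h₁ ζ₀ ≠ 0)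
    (hG : ∀ u ∈ ball ζ₀ ρ, HasDerivAt G ((u - ζ₀) ^ m * h₁ u) u) :
    AnalyticAt ℂ G ζ₀ ∧ ∃ h : ℂ → ℂ, AnalyticAt ℂ h ζ₀ ∧ h ζ₀ ≠ 0 ∧
      ∀ᶠ u in 𝓝 ζ₀, G u = (u - ζ₀) ^ (m + 1) * h u := by
  have hdG : DifferentiableOn ℂ G (ball ζ₀ ρ) := fun u hu =>
    (hG u hu).differentiableAt.differentiableWithinAt
  have hGa : AnalyticAt ℂ G ζ₀ := hdG.analyticAt (ball_mem_nhds ζ₀ hρ)
  refine ⟨hGa, ?_⟩
  have h1 : analyticOrderAt (deriv G) ζ₀ = (m : ℕ) := by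
    rw [hGa.deriv.analyticOrderAt_eq_natCast]
    refine ⟨h₁, hh.analyticAt (ball_mem_nhds ζ₀ hρ), hh0, ?_⟩
    filter_upwards [ball_mem_nhds ζ₀ hρ] with u hu
    rw [(hG u hu).deriv, smul_eq_mul]
  have h2 := hGa.analyticOrderAt_deriv_add_one
  have h3 : (fun u => G u - G ζ₀) = G := by
    funext u
    rw [hG0, sub_zero]
  rw [h3, h1] at h2
  have h4 : analyticOrderAt G ζ₀ = ((m + 1 : ℕ) : ℕ∞) := by
    rw [← h2]
    push_cast
    rfl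
  obtain ⟨h, ha, h0, hev⟩ := hGa.analyticOrderAt_eq_natCast.1 h4
  refine ⟨h, ha, h0, ?_⟩
  filter_upwards [hev] with u hu
  rw [hu, smul_eq_mul]

theorem theta_cont (m : ℕ) : ∃ ε > (0 : ℝ), ε ≤ 1 / 2 ∧ ∀ e e' : ℂ, ‖e‖ ≤ ε → ‖e'‖ ≤ ε →
    ‖(1 + e) ^ m * (1 + e') - 1‖ ≤ 1 / 4 := by
  have hc : ContinuousAt (fun p : ℂ × ℂ => (1 + p.1) ^ m * (1 + p.2)) ((0 : ℂ), (0 : ℂ)) := by
    fun_prop
  obtain ⟨δ, hδ, h⟩ := Metric.continuousAt_iff.1 hc (1 / 4) (by norm_num)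
  refine ⟨min (δ / 2) (1 / 2), by positivity, min_le_right _ _, fun e e' he he' => ?_⟩
  have h1 : dist ((e, e') : ℂ × ℂ) ((0 : ℂ), (0 : ℂ)) < δ := by
    rw [Prod.dist_eq, max_lt_iff, dist_zero_right, dist_zero_right]
    have := min_le_left (δ / 2) (1 / 2)
    constructor <;> linarith
  have h2 := h h1
  rw [dist_eq_norm] at h2
  simp only [add_zero, one_pow, mul_one] at h2
  exact h2.le

theorem contr (φ φ' : ℂ → ℂ) (D₀ q₀ : ℂ) (R : ℝ)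
    (hder : ∀ u ∈ closedBall q₀ R, HasDerivAt φ (φ' u) u)
    (hclose : ∀ u ∈ closedBall q₀ R, ‖φ' u / D₀ - 1‖ ≤ 1 / 4) :
    ∀ u ∈ closedBall q₀ R, ∀ u' ∈ closedBall q₀ R,
      ‖(u - u') - (φ u - φ u') / D₀‖ ≤ 1 / 4 * ‖u - u'‖ := by
  intro u hu u' hu'
  have h1 := Convex.norm_image_sub_le_of_norm_hasDerivWithin_le (𝕜 := ℂ)
    (f := fun x => x - φ x / D₀) (f' := fun x => 1 - φ' x / D₀) (C := 1 / 4)
    (s := closedBall q₀ R) (x := u') (y := u)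
    (fun x hx => ((hasDerivAt_id x).sub ((hder x hx).div_const D₀)).hasDerivWithinAt)
    (fun x hx => by rw [norm_sub_rev]; exact hclose x hx) (convex_closedBall _ _) hu' hu
  have h2 : (u - u') - (φ u - φ u') / D₀ = (u - φ u / D₀) - (u' - φ u' / D₀) := by ring
  rw [h2]
  exact h1

theorem fix_step (φ φ' : ℂ → ℂ) (D₀ q₀ b : ℂ) (R : ℝ) (hR : 0 < R) (hD : D₀ ≠ 0)
    (hder : ∀ u ∈ closedBall q₀ R, HasDerivAt φ (φ' u) u)
    (hclose : ∀ u ∈ closedBall q₀ R, ‖φ' u / D₀ - 1‖ ≤ 1 / 4)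
    (h0 : ‖φ q₀ - b‖ ≤ ‖D₀‖ * (R / 2)) : ∃ u ∈ closedBall q₀ R, φ u = b := by
  have hDn : 0 < ‖D₀‖ := norm_pos_iff.2 hD
  have hc := contr φ φ' D₀ q₀ R hder hclose
  have hq : q₀ ∈ closedBall q₀ R := mem_closedBall_self hR.le
  let T : ℂ → ℂ := fun u => u - (φ u - b) / D₀
  have hT : ∀ u ∈ closedBall q₀ R, ∀ u' ∈ closedBall q₀ R, ‖T u - T u'‖ ≤ 1 / 4 * ‖u - u'‖ := by
    intro u hu u' hu'
    have h2 : T u - T u' = (u - u') - (φ u - φ u') / D₀ := by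
      show (u - (φ u - b) / D₀) - (u' - (φ u' - b) / D₀) = _
      ring
    rw [h2]
    exact hc u hu u' hu'
  have hmaps : MapsTo T (closedBall q₀ R) (closedBall q₀ R) := by
    intro u hu
    rw [mem_closedBall, dist_eq_norm]
    have h1 := hT u hu q₀ hq
    have h2 : ‖T q₀ - q₀‖ ≤ R / 2 := by
      have : T q₀ - q₀ = -((φ q₀ - b) / D₀) := by
        show (q₀ - (φ q₀ - b) / D₀) - q₀ = _
        ring
      rw [this, norm_neg, norm_div, div_le_iff₀ hDn, mul_comm]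
      exact h0
    rw [mem_closedBall, dist_eq_norm] at hu
    have h3 : T u - q₀ = (T u - T q₀) + (T q₀ - q₀) := by ring
    rw [h3]
    have := norm_add_le (T u - T q₀) (T q₀ - q₀)
    linarith
  have hcon : ContractingWith (1 / 4 : NNReal) (hmaps.restrict T _ _) := by
    refine ⟨?_, LipschitzWith.of_dist_le_mul ?_⟩
    · rw [div_lt_one (by norm_num)]
      norm_num
    · rintro ⟨u, hu⟩ ⟨u', hu'⟩
      have h1 := hT u hu u' hu'
      show dist (T u) (T u') ≤ ((1 / 4 : NNReal) : ℝ) * dist u u'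
      rw [dist_eq_norm, dist_eq_norm]
      push_cast
      exact h1
  obtain ⟨u, hu, hfix, -⟩ := hcon.exists_fixedPoint' isClosed_closedBall.isComplete hmaps hq
    (edist_ne_top _ _)
  refine ⟨u, hu, ?_⟩
  have h1 : u - (φ u - b) / D₀ = u := hfix
  have h2 : (φ u - b) / D₀ = 0 := by
    rwa [sub_eq_self] at h1
  rw [div_eq_zero_iff] at h2
  rcases h2 with h2 | h2
  · exact sub_eq_zero.1 h2
  · exact absurd h2 hD

theorem t_ROOTA (hRT : S_RT1) : S_ROOTA := by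
  intro k m ρ g ζ h₁ hm hρ hζ hg hh hh0 hder
  have h0ρ : (0 : Fin k → ℂ) ∈ ball (0 : Fin k → ℂ) ρ := mem_ball_self hρ
  have hζρ : ζ 0 ∈ ball (ζ 0) ρ := mem_ball_self hρ
  have hd1 : DifferentiableOn ℂ (fun u => h₁ (0, u)) (ball (ζ 0) ρ) := by
    refine hh.comp (t := ball 0 ρ ×ˢ ball (ζ 0) ρ) (by fun_prop) ?_
    intro u hu
    exact ⟨h0ρ, hu⟩
  obtain ⟨hGa, hG⟩ := order_prim (fun u => g 0 u - g 0 (ζ 0)) (fun u => h₁ (0, u)) (ζ 0) m ρ hρ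
    (sub_self _) hd1 (hh0 (0, ζ 0) ⟨h0ρ, hζρ⟩) (fun u hu => (hder 0 h0ρ u hu).sub_const _)
  obtain ⟨η₁, hη₁, B₁, hB₁, hroot⟩ := hRT (fun u => g 0 u - g 0 (ζ 0)) (ζ 0) (m + 1) (by omega)
    hGa hG
  obtain ⟨ε, hε, hε2, hθ⟩ := theta_cont m
  obtain ⟨R₁, hR₁, hR₁ρ, L, hL, hLip⟩ := lip_near ζ 0 ρ hρ hζ
  have hg' : DifferentiableOn ℂ (fun p : (Fin k → ℂ) × ℂ => g p.1 p.2)
      (ball ((0 : Fin k → ℂ), ζ 0) ρ) := by
    rw [← ball_prod_same]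
    exact hg
  obtain ⟨R₂, hR₂, hR₂ρ, C, hC, hCLip⟩ := lip_near _ ((0 : Fin k → ℂ), ζ 0) ρ hρ hg'
  have hcont : ContinuousAt h₁ ((0 : Fin k → ℂ), ζ 0) :=
    hh.continuousOn.continuousAt (prod_mem_nhds (ball_mem_nhds _ hρ) (ball_mem_nhds _ hρ))
  obtain ⟨H₀, hH₀⟩ : ∃ H₀ : ℂ, H₀ = h₁ (0, ζ 0) := ⟨_, rfl⟩
  have hH0 : 0 < ‖H₀‖ := by
    rw [hH₀]
    exact norm_pos_iff.2 (hh0 (0, ζ 0) ⟨h0ρ, hζρ⟩)
  obtain ⟨R₃, hR₃, hR₃'⟩ := Metric.continuousAt_iff.1 hcont (‖H₀‖ * (ε / 4)) (by positivity)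
  obtain ⟨R', hR'⟩ : ∃ R' : ℝ, R' = min ρ (min R₁ (min R₂ R₃)) := ⟨_, rfl⟩
  have hR'0 : 0 < R' := by rw [hR']; exact lt_min hρ (lt_min hR₁ (lt_min hR₂ hR₃))
  have hR'ρ : R' ≤ ρ := by rw [hR']; exact min_le_left _ _
  have hR'1 : R' ≤ R₁ := by rw [hR']; exact (min_le_right _ _).trans (min_le_left _ _)
  have hR'2 : R' ≤ R₂ := by
    rw [hR']; exact (min_le_right _ _).trans ((min_le_right _ _).trans (min_le_left _ _))
  have hR'3 : R' ≤ R₃ := by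
    rw [hR']; exact (min_le_right _ _).trans ((min_le_right _ _).trans (min_le_right _ _))
  have hB₁0 : 0 < B₁ := by linarith
  obtain ⟨a, ha⟩ : ∃ a : ℝ, a = ε / (2 * B₁) := ⟨_, rfl⟩
  have ha0 : 0 < a := by rw [ha]; positivity
  have ha1 : a ≤ 1 := by
    rw [ha, div_le_one (by positivity)]
    linarith
  obtain ⟨b1, hb1⟩ : ∃ b1 : ℝ, b1 = L / a := ⟨_, rfl⟩
  obtain ⟨b2, hb2⟩ : ∃ b2 : ℝ, b2 = 4 * (C + 1) * B₁ ^ m / (‖H₀‖ * a) := ⟨_, rfl⟩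
  obtain ⟨b3, hb3⟩ : ∃ b3 : ℝ, b3 = 4 * (C + 1) * B₁ ^ m / ‖H₀‖ := ⟨_, rfl⟩
  have hb10 : 0 ≤ b1 := by rw [hb1]; positivity
  have hb20 : 0 ≤ b2 := by rw [hb2]; positivity
  have hb30 : 0 ≤ b3 := by rw [hb3]; positivity
  obtain ⟨B, hB⟩ : ∃ B : ℝ, B = B₁ + b1 + b2 + b3 := ⟨_, rfl⟩
  have hBB₁ : B₁ ≤ B := by linarith
  have hBb1 : b1 ≤ B := by linarith
  have hBb2 : b2 ≤ B := by linarith
  have hBb3 : b3 ≤ B := by linarith
  have hB1 : 1 ≤ B := by linarith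
  have hB0 : 0 < B := by linarith
  obtain ⟨η, hη⟩ : ∃ η : ℝ, η = min (min ρ 1) (min η₁ (R' / (2 * (1 + B₁)))) := ⟨_, rfl⟩
  have hη0 : 0 < η := by
    rw [hη]; exact lt_min (lt_min hρ one_pos) (lt_min hη₁ (by positivity))
  have hηρ : η ≤ ρ := by rw [hη]; exact (min_le_left _ _).trans (min_le_left _ _)
  have hη1 : η ≤ 1 := by rw [hη]; exact (min_le_left _ _).trans (min_le_right _ _)
  have hηη₁ : η ≤ η₁ := by rw [hη]; exact (min_le_right _ _).trans (min_le_left _ _)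
  have hηR : η ≤ R' / (2 * (1 + B₁)) := by
    rw [hη]; exact (min_le_right _ _).trans (min_le_right _ _)
  have hηR2 : (1 + B₁) * η ≤ R' / 2 := by
    rw [le_div_iff₀ (by positivity)] at hηR
    linarith
  refine ⟨η, hη0, hηρ, B, hB1, ?_⟩
  intro z w y r K hz hy hyη hyw hr hK hBr hw
  have hK0 : 0 < K := by linarith
  have hy1 : y ≤ 1 := hyη.trans hη1
  have hym : y ^ (m + 1) ≤ y := by
    calc y ^ (m + 1) ≤ y ^ 1 := pow_le_pow_of_le_one hy.le hy1 (by omega)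
      _ = y := pow_one y
  have hBr2 : B * r ≤ B * K * r := by
    have : B * r * 1 ≤ B * r * K := mul_le_mul_of_nonneg_left hK (by positivity)
    linarith
  have hBry : B * r ≤ y := by linarith
  have hry : r ≤ y := by
    have : 1 * r ≤ B * r := mul_le_mul_of_nonneg_right hB1 hr.le
    linarith
  obtain ⟨q₀, hq1, hq2, hq3, hq4⟩ := hroot (w 0 - g 0 (ζ 0)) z y hyw.symm hy (hyη.trans hηη₁)
  have hq1' : g 0 q₀ = w 0 := sub_left_inj.1 hq1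
  obtain ⟨v₀, hv₀⟩ : ∃ v₀ : ℂ, v₀ = q₀ - ζ 0 := ⟨_, rfl⟩
  rw [← hv₀] at hq2 hq3
  have hv0 : 0 < ‖v₀‖ := by
    by_contra hcon
    have : ‖v₀‖ = 0 := le_antisymm (not_lt.1 hcon) (norm_nonneg _)
    rw [this, mul_zero] at hq3
    linarith
  have hv0' : v₀ ≠ 0 := norm_pos_iff.1 hv0
  have hLr : L * r ≤ a * y := by
    have h1 : L = b1 * a := by rw [hb1, div_mul_cancel₀ _ ha0.ne']
    calc L * r = b1 * r * a := by rw [h1]; ring
      _ ≤ B * r * a := by gcongr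
      _ ≤ y * a := by gcongr
      _ = a * y := mul_comm _ _
  have hηR3 : (1 + B₁) * y ≤ R' / 2 := by
    have : (1 + B₁) * y ≤ (1 + B₁) * η := mul_le_mul_of_nonneg_left hyη (by positivity)
    linarith
  have hyR : y < R' := by
    have : 0 < B₁ * y := by positivity
    nlinarith
  have hs' : ∀ s ∈ ball (0 : Fin k → ℂ) r, s ∈ ball (0 : Fin k → ℂ) R' := fun s hs =>
    ball_subset_ball (hry.trans hyR.le) hs
  have hu' : ∀ u ∈ closedBall q₀ (a * y), u ∈ ball (ζ 0) R' := by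
    intro u hu
    rw [mem_closedBall, dist_eq_norm] at hu
    rw [mem_ball, dist_eq_norm]
    have h1 : u - ζ 0 = (u - q₀) + v₀ := by rw [hv₀]; ring
    rw [h1]
    have h2 := norm_add_le (u - q₀) v₀
    have h3 : a * y ≤ 1 * y := mul_le_mul_of_nonneg_right ha1 hy.le
    linarith
  have hay : 0 < a * y := by positivity
  have hq₀mem : q₀ ∈ closedBall q₀ (a * y) := mem_closedBall_self hay.le
  have h0r : (0 : Fin k → ℂ) ∈ ball (0 : Fin k → ℂ) r := mem_ball_self hr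
  have hhc : ∀ s ∈ ball (0 : Fin k → ℂ) r, ∀ u ∈ closedBall q₀ (a * y),
      ‖h₁ (s, u) - H₀‖ ≤ ‖H₀‖ * (ε / 4) := by
    intro s hs u hu
    have h1 : dist ((s, u) : (Fin k → ℂ) × ℂ) ((0 : Fin k → ℂ), ζ 0) < R₃ := by
      rw [Prod.dist_eq, max_lt_iff]
      exact ⟨lt_of_lt_of_le (hs' s hs) hR'3, lt_of_lt_of_le (hu' u hu) hR'3⟩
    have h2 := hR₃' h1
    rw [dist_eq_norm, ← hH₀] at h2
    exact h2.le
  obtain ⟨hq, hhq⟩ : ∃ hq : ℂ, hq = h₁ (0, q₀) := ⟨_, rfl⟩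
  have hhqn : ‖H₀‖ / 2 ≤ ‖hq‖ := by
    have h1 := hhc 0 h0r q₀ hq₀mem
    rw [← hhq] at h1
    have h2 : ‖H₀‖ ≤ ‖hq‖ + ‖hq - H₀‖ := by
      have := norm_sub_le hq (hq - H₀)
      rwa [sub_sub_cancel] at this
    have h3 : ‖H₀‖ * (ε / 4) ≤ ‖H₀‖ * (1 / 2) := mul_le_mul_of_nonneg_left (by linarith) hH0.le
    linarith
  have hhq0 : 0 < ‖hq‖ := by linarith [half_pos hH0]
  have hhq0' : hq ≠ 0 := norm_pos_iff.1 hhq0
  obtain ⟨D₀, hD₀⟩ : ∃ D₀ : ℂ, D₀ = v₀ ^ m * hq := ⟨_, rfl⟩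
  have hD0 : D₀ ≠ 0 := by rw [hD₀]; exact mul_ne_zero (pow_ne_zero _ hv0') hhq0'
  have hDn0 : 0 < ‖D₀‖ := norm_pos_iff.2 hD0
  have hDn : y ^ m * ‖H₀‖ ≤ 2 * B₁ ^ m * ‖D₀‖ := by
    rw [hD₀, norm_mul, norm_pow]
    have h1 : y ^ m ≤ B₁ ^ m * ‖v₀‖ ^ m := by
      rw [← mul_pow]
      exact pow_le_pow_left₀ hy.le hq3 m
    calc y ^ m * ‖H₀‖ ≤ (B₁ ^ m * ‖v₀‖ ^ m) * (2 * ‖hq‖) := by
          apply mul_le_mul h1 (by linarith) hH0.le (by positivity)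
      _ = _ := by ring
  have hnear : ∀ s ∈ ball (0 : Fin k → ℂ) r, ∀ u ∈ closedBall q₀ (a * y),
      ‖u - ζ s - v₀‖ ≤ ε * ‖v₀‖ := by
    intro s hs u hu
    have h1 : u - ζ s - v₀ = (u - q₀) - (ζ s - ζ 0) := by rw [hv₀]; ring
    rw [h1]
    have h2 := norm_sub_le (u - q₀) (ζ s - ζ 0)
    have h3 : ‖ζ s - ζ 0‖ ≤ L * r := by
      have h4 := hLip s (ball_subset_ball hR'1 (hs' s hs)) 0 (mem_ball_self hR₁)
      rw [sub_zero] at h4
      rw [mem_ball, dist_zero_right] at hs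
      exact h4.trans (mul_le_mul_of_nonneg_left hs.le hL)
    rw [mem_closedBall, dist_eq_norm] at hu
    have h5 : a * y + a * y ≤ ε * ‖v₀‖ := by
      have h6 : a * y + a * y = ε / B₁ * y := by
        rw [ha]
        field_simp
        ring
      rw [h6]
      calc ε / B₁ * y ≤ ε / B₁ * (B₁ * ‖v₀‖) := by gcongr
        _ = ε * ‖v₀‖ := by field_simp
    linarith
  have hclose : ∀ s ∈ ball (0 : Fin k → ℂ) r, ∀ u ∈ closedBall q₀ (a * y),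
      ‖((u - ζ s) ^ m * h₁ (s, u)) / D₀ - 1‖ ≤ 1 / 4 := by
    intro s hs u hu
    have he : ‖(u - ζ s - v₀) / v₀‖ ≤ ε := by
      rw [norm_div, div_le_iff₀ hv0]
      exact hnear s hs u hu
    have he' : ‖(h₁ (s, u) - hq) / hq‖ ≤ ε := by
      rw [norm_div, div_le_iff₀ hhq0]
      have h1 := hhc s hs u hu
      have h2 := hhc 0 h0r q₀ hq₀mem
      rw [← hhq] at h2
      have h3 : h₁ (s, u) - hq = (h₁ (s, u) - H₀) - (hq - H₀) := by ring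
      rw [h3]
      have h4 := norm_sub_le (h₁ (s, u) - H₀) (hq - H₀)
      have h5 : ‖H₀‖ / 2 * ε ≤ ‖hq‖ * ε := mul_le_mul_of_nonneg_right hhqn hε.le
      linarith
    have h1 := hθ _ _ he he'
    have h2 : ((u - ζ s) ^ m * h₁ (s, u)) / D₀ =
        (1 + (u - ζ s - v₀) / v₀) ^ m * (1 + (h₁ (s, u) - hq) / hq) := by
      have e1 : 1 + (u - ζ s - v₀) / v₀ = (u - ζ s) / v₀ := by field_simp; ring
      have e2 : 1 + (h₁ (s, u) - hq) / hq = h₁ (s, u) / hq := by field_simp; ring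
      rw [e1, e2, hD₀, div_pow, div_mul_div_comm]
    rw [h2]
    exact h1
  have hderiv : ∀ s ∈ ball (0 : Fin k → ℂ) r, ∀ u ∈ closedBall q₀ (a * y),
      HasDerivAt (g s) ((u - ζ s) ^ m * h₁ (s, u)) u := fun s hs u hu =>
    hder s (ball_subset_ball hR'ρ (hs' s hs)) u (ball_subset_ball hR'ρ (hu' u hu))
  have hgl : ∀ s ∈ ball (0 : Fin k → ℂ) r, ∀ s' ∈ ball (0 : Fin k → ℂ) r,
      ∀ u ∈ closedBall q₀ (a * y), ‖g s u - g s' u‖ ≤ C * ‖s - s'‖ := by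
    intro s hs s₁ hs₁ u hu
    have hmem : ∀ s₂ ∈ ball (0 : Fin k → ℂ) r,
        ((s₂, u) : (Fin k → ℂ) × ℂ) ∈ ball ((0 : Fin k → ℂ), ζ 0) R₂ := by
      intro s₂ hs₂
      rw [← ball_prod_same]
      exact ⟨ball_subset_ball hR'2 (hs' s₂ hs₂), ball_subset_ball hR'2 (hu' u hu)⟩
    have h1 := hCLip (s, u) (hmem s hs) (s₁, u) (hmem s₁ hs₁)
    have h2 : ‖((s, u) : (Fin k → ℂ) × ℂ) - (s₁, u)‖ = ‖s - s₁‖ := by
      rw [Prod.mk_sub_mk, sub_self, Prod.norm_def]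
      simp
    rw [h2] at h1
    exact h1
  have hex : ∀ s ∈ ball (0 : Fin k → ℂ) r, ∃ u ∈ closedBall q₀ (a * y), g s u = w s := by
    intro s hs
    refine fix_step (g s) (fun u => (u - ζ s) ^ m * h₁ (s, u)) D₀ q₀ (w s) (a * y) hay hD0
      (hderiv s hs) (hclose s hs) ?_
    have h1 := hgl s hs 0 h0r q₀ hq₀mem
    have h2 := hw s hs 0 h0r
    rw [sub_zero] at h1 h2
    have h3 : g s q₀ - w s = (g s q₀ - g 0 q₀) - (w s - w 0) := by rw [hq1']; ring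
    have h4 := norm_sub_le (g s q₀ - g 0 q₀) (w s - w 0)
    rw [mem_ball, dist_zero_right] at hs
    have h5 : C * ‖s‖ + K * ‖s‖ ≤ (C + 1) * (K * r) := by
      have e1 : C * ‖s‖ ≤ C * (K * r) := by
        apply mul_le_mul_of_nonneg_left _ hC
        nlinarith
      have e2 : K * ‖s‖ ≤ K * r := mul_le_mul_of_nonneg_left hs.le hK0.le
      linarith
    have h6 : (C + 1) * (K * r) ≤ ‖D₀‖ * (a * y / 2) := by
      have e1 : b2 * (K * r) ≤ y ^ (m + 1) := by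
        calc b2 * (K * r) ≤ B * (K * r) := by gcongr
          _ = B * K * r := by ring
          _ ≤ _ := hBr
      have e2 : b2 * (‖H₀‖ * a) = 4 * (C + 1) * B₁ ^ m := by
        rw [hb2, div_mul_cancel₀ _ (by positivity)]
      have e3 : 4 * B₁ ^ m * ((C + 1) * (K * r)) ≤ 4 * B₁ ^ m * (‖D₀‖ * (a * y / 2)) := by
        calc 4 * B₁ ^ m * ((C + 1) * (K * r)) = (b2 * (‖H₀‖ * a)) * (K * r) := by rw [e2]; ring
          _ = (b2 * (K * r)) * (‖H₀‖ * a) := by ring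
          _ ≤ y ^ (m + 1) * (‖H₀‖ * a) := by gcongr
          _ = (y ^ m * ‖H₀‖) * (a * y) := by ring
          _ ≤ (2 * B₁ ^ m * ‖D₀‖) * (a * y) := by gcongr
          _ = _ := by ring
      exact le_of_mul_le_mul_left e3 (by positivity)
    rw [h3]
    linarith
  choose! q hqmem hqeq using hex
  have hcontr := fun s (hs : s ∈ ball (0 : Fin k → ℂ) r) =>
    contr (g s) (fun u => (u - ζ s) ^ m * h₁ (s, u)) D₀ q₀ (a * y) (hderiv s hs) (hclose s hs)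
  have hq0 : q 0 = q₀ := by
    have h1 := hcontr 0 h0r (q 0) (hqmem 0 h0r) q₀ hq₀mem
    rw [hqeq 0 h0r, hq1', sub_self, zero_div, sub_zero] at h1
    have h2 : ‖q 0 - q₀‖ = 0 := le_antisymm (by linarith) (norm_nonneg _)
    exact sub_eq_zero.1 (norm_eq_zero.1 h2)
  refine ⟨q, ?_, ?_, ?_, ?_⟩
  · rw [hq0]
    have h1 : q₀ - z = v₀ - (z - ζ 0) := by rw [hv₀]; ring
    rw [h1]
    have h2 := norm_sub_le v₀ (z - ζ 0)
    have h3 : B₁ * y ≤ B * y := mul_le_mul_of_nonneg_right hBB₁ hy.le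
    have h4 : 1 * ‖z - ζ 0‖ ≤ B * ‖z - ζ 0‖ := mul_le_mul_of_nonneg_right hB1 (norm_nonneg _)
    linarith
  · rw [hq0]
    exact hq4.trans (mul_le_mul_of_nonneg_right hBB₁ (norm_nonneg _))
  · intro s hs s₁ hs₁
    have h1 := hcontr s hs (q s) (hqmem s hs) (q s₁) (hqmem s₁ hs₁)
    have h2 := hgl s hs s₁ hs₁ (q s₁) (hqmem s₁ hs₁)
    have h3 := hw s hs s₁ hs₁
    have h4 : g s (q s) - g s (q s₁) = (w s - w s₁) - (g s (q s₁) - g s₁ (q s₁)) := by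
      rw [hqeq s hs, hqeq s₁ hs₁]; ring
    have h5 : ‖(g s (q s) - g s (q s₁)) / D₀‖ ≤ (C + 1) * K * ‖s - s₁‖ / ‖D₀‖ := by
      rw [norm_div]
      apply div_le_div_of_nonneg_right _ hDn0.le
      rw [h4]
      have h6 := norm_sub_le (w s - w s₁) (g s (q s₁) - g s₁ (q s₁))
      have h7 : C * ‖s - s₁‖ ≤ C * (K * ‖s - s₁‖) := by
        apply mul_le_mul_of_nonneg_left _ hC
        have := norm_nonneg (s - s₁)
        nlinarith
      linarith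
    have h6 : ‖q s - q s₁‖ ≤ ‖(q s - q s₁) - (g s (q s) - g s (q s₁)) / D₀‖ +
        ‖(g s (q s) - g s (q s₁)) / D₀‖ := by
      have := norm_add_le ((q s - q s₁) - (g s (q s) - g s (q s₁)) / D₀)
        ((g s (q s) - g s (q s₁)) / D₀)
      rwa [sub_add_cancel] at this
    have h7 : ‖q s - q s₁‖ ≤ 2 * ((C + 1) * K * ‖s - s₁‖ / ‖D₀‖) := by
      have := norm_nonneg (q s - q s₁)
      linarith
    have h8 : ‖D₀‖ * ‖q s - q s₁‖ ≤ 2 * ((C + 1) * K * ‖s - s₁‖) := by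
      calc ‖D₀‖ * ‖q s - q s₁‖ ≤ ‖D₀‖ * (2 * ((C + 1) * K * ‖s - s₁‖ / ‖D₀‖)) := by gcongr
        _ = _ := by field_simp
    have h9 : ‖H₀‖ * (y ^ m * ‖q s - q s₁‖) ≤ ‖H₀‖ * (b3 * K * ‖s - s₁‖) := by
      have e2 : b3 * ‖H₀‖ = 4 * (C + 1) * B₁ ^ m := by
        rw [hb3, div_mul_cancel₀ _ hH0.ne']
      calc ‖H₀‖ * (y ^ m * ‖q s - q s₁‖) = (y ^ m * ‖H₀‖) * ‖q s - q s₁‖ := by ring
        _ ≤ (2 * B₁ ^ m * ‖D₀‖) * ‖q s - q s₁‖ := by gcongr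
        _ = 2 * B₁ ^ m * (‖D₀‖ * ‖q s - q s₁‖) := by ring
        _ ≤ 2 * B₁ ^ m * (2 * ((C + 1) * K * ‖s - s₁‖)) := by gcongr
        _ = (b3 * ‖H₀‖) * (K * ‖s - s₁‖) := by rw [e2]; ring
        _ = _ := by ring
    have h10 := le_of_mul_le_mul_left h9 hH0
    refine h10.trans ?_
    gcongr
  · intro s hs
    refine ⟨ball_subset_ball hR'ρ (hs' s hs), ball_subset_ball hR'ρ (hu' _ (hqmem s hs)), ?_,
      hqeq s hs⟩
    intro hcon
    have h1 := hnear s hs (q s) (hqmem s hs)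
    rw [hcon, sub_self, zero_sub, norm_neg] at h1
    have h2 : ε * ‖v₀‖ ≤ 1 / 2 * ‖v₀‖ := mul_le_mul_of_nonneg_right hε2 hv0.le
    linarith

end Pool.Agent.H39.BT207.ROOTA
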